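import Pool.Agent.Helper20.RL.St3
import Pool.Agent.Helper42.LM.M_LC

/-!
# Project RL, module LIP: interpolation of a restricted weak type estimate with the trivial one
-/

set_option autoImplicit false

open MeasureTheory Set Filter Topology
open scoped ENNReal RealInnerProductSpace

namespace Pool.Agent.Helper6.RL

open Pool.Agent.Helper68.LM (Pl BB Bd Av HL ft fm DQ)
open Pool.Agent.Helper20.RG Pool.Agent.Helper20.RL

/-- the maximal operator -/
private noncomputable def MF (ν : Measure Pl) (f : Pl → ℝ≥0∞) (x : Pl) : ℝ≥0∞ :=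
  ⨆ k : ℤ, ∫⁻ y, f (x - (2 : ℝ) ^ k • y) ∂ν

private theorem MF_meas (ν : Measure Pl) [SFinite ν] {f : Pl → ℝ≥0∞} (hf : Measurable f) :
    Measurable (MF ν f) := by
  refine Measurable.iSup (fun k => ?_)
  have h1 : Measurable (fun z : Pl × Pl => f (z.1 - (2 : ℝ) ^ k • z.2)) :=
    hf.comp (by fun_prop)
  exact h1.lintegral_prod_right'

private theorem MF_mono (ν : Measure Pl) {f g : Pl → ℝ≥0∞} (h : ∀ x, f x ≤ g x) (x : Pl) :
    MF ν f x ≤ MF ν g x :=
  iSup_mono fun _ => lintegral_mono fun _ => h _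

/-- the weak type estimate for all measurable sets -/
private theorem rw_all (ν : Measure Pl) [SFinite ν] {C q : ℝ} (hC : ∀ Λ : ℝ, 0 < Λ →
    ∀ E : Set Pl, BM E → volume {x | ENNReal.ofReal Λ < MF ν (E.indicator 1) x} ≤
      ENNReal.ofReal (C * Λ ^ (-q)) * volume E) (Λ : ℝ) (hΛ : 0 < Λ) (E : Set Pl)
    (hE : MeasurableSet E) :
    volume {x | ENNReal.ofReal Λ < MF ν (E.indicator 1) x} ≤
      ENNReal.ofReal (C * Λ ^ (-q)) * volume E := by
  set En : ℕ → Set Pl := fun n => E ∩ Metric.closedBall 0 n with hEn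
  have hEnm : ∀ n, MeasurableSet (En n) := fun n => hE.inter Metric.isClosed_closedBall.measurableSet
  have hmono : Monotone En := by
    intro m n hmn
    refine inter_subset_inter_right _ (Metric.closedBall_subset_closedBall ?_)
    exact_mod_cast hmn
  have hind : Monotone fun n => ((En n).indicator (1 : Pl → ℝ≥0∞)) := by
    intro m n hmn x
    exact indicator_le_indicator_of_subset (hmono hmn) (fun _ => zero_le) x
  have hsup : ∀ z, E.indicator (1 : Pl → ℝ≥0∞) z = ⨆ n, (En n).indicator (1 : Pl → ℝ≥0∞) z := by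
    intro z
    apply le_antisymm
    · by_cases hz : z ∈ E
      · obtain ⟨n, hn⟩ := exists_nat_ge ‖z‖
        have hzn : z ∈ En n := ⟨hz, by simpa using hn⟩
        refine le_trans (le_of_eq ?_) (le_iSup (fun n => (En n).indicator (1 : Pl → ℝ≥0∞) z) n)
        rw [indicator_of_mem hz, indicator_of_mem hzn]
      · rw [indicator_of_notMem hz]; exact zero_le
    · exact iSup_le fun n => indicator_le_indicator_of_subset inter_subset_left (fun _ => zero_le) z
  have hF : ∀ x, MF ν (E.indicator 1) x = ⨆ n, MF ν ((En n).indicator 1) x := by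
    intro x
    unfold MF
    rw [iSup_comm]
    congr 1
    funext k
    rw [← lintegral_iSup]
    · exact lintegral_congr fun y => hsup _
    · intro n
      exact (measurable_one.indicator (hEnm n)).comp (by fun_prop)
    · intro m n hmn y
      exact hind hmn _
  have hset : {x | ENNReal.ofReal Λ < MF ν (E.indicator 1) x} =
      ⋃ n, {x | ENNReal.ofReal Λ < MF ν ((En n).indicator 1) x} := by
    ext x
    simp only [mem_ofPred_eq, mem_iUnion, hF x, lt_iSup_iff]
  have hdir : Monotone fun n => {x | ENNReal.ofReal Λ < MF ν ((En n).indicator 1) x} := by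
    intro m n hmn x hx
    exact lt_of_lt_of_le (show ENNReal.ofReal Λ < MF ν ((En m).indicator 1) x from hx)
      (MF_mono ν (fun z => hind hmn z) x)
  rw [hset, hdir.measure_iUnion]
  refine iSup_le fun n => ?_
  refine (hC Λ hΛ (En n) ⟨hEnm n, Metric.isBounded_closedBall.subset inter_subset_right⟩).trans ?_
  exact mul_le_mul_right (measure_mono inter_subset_left) _

/-- decomposition of a function along its superlevel sets -/
private theorem dec (f : Pl → ℝ≥0∞) (lam : ℝ) (hl : 0 < lam) (x : Pl) :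
    f x ≤ ENNReal.ofReal lam + ∑' i : ℕ, ENNReal.ofReal ((2 : ℝ) ^ i * lam) *
      ({z | ENNReal.ofReal ((2 : ℝ) ^ i * lam) < f z}).indicator (1 : Pl → ℝ≥0∞) x := by
  -- partial sums
  have key : ∀ n : ℕ, min (f x) (ENNReal.ofReal ((2 : ℝ) ^ n * lam)) ≤ ENNReal.ofReal lam +
      ∑ i ∈ Finset.range n, ENNReal.ofReal ((2 : ℝ) ^ i * lam) *
      ({z | ENNReal.ofReal ((2 : ℝ) ^ i * lam) < f z}).indicator (1 : Pl → ℝ≥0∞) x := by
    intro n
    induction n with
    | zero =>
      simp
    | succ n ih =>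
      rw [Finset.sum_range_succ, ← add_assoc]
      by_cases h : ENNReal.ofReal ((2 : ℝ) ^ n * lam) < f x
      · have h1 : x ∈ {z | ENNReal.ofReal ((2 : ℝ) ^ n * lam) < f z} := h
        rw [indicator_of_mem h1, Pi.one_apply, mul_one]
        rw [min_eq_right h.le] at ih
        refine (min_le_right _ _).trans ?_
        have h2 : ENNReal.ofReal ((2 : ℝ) ^ (n + 1) * lam) =
            ENNReal.ofReal ((2 : ℝ) ^ n * lam) + ENNReal.ofReal ((2 : ℝ) ^ n * lam) := by
          rw [← ENNReal.ofReal_add (by positivity) (by positivity)]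
          congr 1
          rw [pow_succ]; ring
        rw [h2]
        exact add_le_add ih le_rfl
      · rw [not_lt] at h
        rw [min_eq_left h] at ih
        exact (min_le_left _ _).trans (ih.trans le_self_add)
  have hle : ∀ n : ℕ, min (f x) (ENNReal.ofReal ((2 : ℝ) ^ n * lam)) ≤ ENNReal.ofReal lam +
      ∑' i : ℕ, ENNReal.ofReal ((2 : ℝ) ^ i * lam) *
      ({z | ENNReal.ofReal ((2 : ℝ) ^ i * lam) < f z}).indicator (1 : Pl → ℝ≥0∞) x :=
    fun n => (key n).trans (add_le_add le_rfl (ENNReal.sum_le_tsum _))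
  have hT : Tendsto (fun n : ℕ => ENNReal.ofReal ((2 : ℝ) ^ n * lam)) atTop (𝓝 ∞) := by
    apply ENNReal.tendsto_ofReal_nhds_top.2
    exact (tendsto_pow_atTop_atTop_of_one_lt (by norm_num)).atTop_mul_const hl
  have hT2 : Tendsto (fun n : ℕ => min (f x) (ENNReal.ofReal ((2 : ℝ) ^ n * lam))) atTop
      (𝓝 (f x)) := by
    have := (tendsto_const_nhds (x := f x)).min hT
    rwa [min_eq_left le_top] at this
  exact le_of_tendsto' hT2 hle

/-- subadditivity -/
private theorem MF_dec (ν : Measure Pl) [SFinite ν] {f : Pl → ℝ≥0∞} (hf : Measurable f) (lam : ℝ)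
    (hl : 0 < lam) (x : Pl) :
    MF ν f x ≤ ENNReal.ofReal lam * ν univ + ∑' i : ℕ, ENNReal.ofReal ((2 : ℝ) ^ i * lam) *
      MF ν (({z | ENNReal.ofReal ((2 : ℝ) ^ i * lam) < f z}).indicator 1) x := by
  have hm : ∀ i : ℕ, MeasurableSet {z | ENNReal.ofReal ((2 : ℝ) ^ i * lam) < f z} :=
    fun i => measurableSet_lt measurable_const hf
  refine iSup_le fun k => ?_
  have hmi : ∀ i : ℕ, Measurable fun y : Pl =>
      ({z | ENNReal.ofReal ((2 : ℝ) ^ i * lam) < f z}).indicator (1 : Pl → ℝ≥0∞)
        (x - (2 : ℝ) ^ k • y) :=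
    fun i => (measurable_one.indicator (hm i)).comp (by fun_prop)
  calc ∫⁻ y, f (x - (2 : ℝ) ^ k • y) ∂ν
      ≤ ∫⁻ y, (ENNReal.ofReal lam + ∑' i : ℕ, ENNReal.ofReal ((2 : ℝ) ^ i * lam) *
      ({z | ENNReal.ofReal ((2 : ℝ) ^ i * lam) < f z}).indicator (1 : Pl → ℝ≥0∞)
        (x - (2 : ℝ) ^ k • y)) ∂ν := lintegral_mono fun y => dec f lam hl _
    _ = ENNReal.ofReal lam * ν univ + ∑' i : ℕ, ENNReal.ofReal ((2 : ℝ) ^ i * lam) *
        ∫⁻ y, ({z | ENNReal.ofReal ((2 : ℝ) ^ i * lam) < f z}).indicator (1 : Pl → ℝ≥0∞)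
        (x - (2 : ℝ) ^ k • y) ∂ν := by
        rw [lintegral_add_left measurable_const, lintegral_const, lintegral_tsum]
        · congr 2
          funext i
          rw [lintegral_const_mul _ (hmi i)]
        · intro i
          exact ((hmi i).const_mul _).aemeasurable
    _ ≤ _ := by
        refine add_le_add le_rfl (ENNReal.tsum_le_tsum fun i => ?_)
        exact mul_le_mul_right (le_iSup (fun k : ℤ => ∫⁻ y, ({z | ENNReal.ofReal ((2 : ℝ) ^ i * lam)
          < f z}).indicator (1 : Pl → ℝ≥0∞) (x - (2 : ℝ) ^ k • y) ∂ν) k) _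

/-- the geometric choice of the weights -/
private theorem geo (r : ℝ) (h0 : 0 < r) (h1 : r < 1) :
    ∑' i : ℕ, ENNReal.ofReal ((1 - r) / 2 * r ^ i) = ENNReal.ofReal (1 / 2) := by
  have hs : Summable fun i : ℕ => (1 - r) / 2 * r ^ i :=
    (summable_geometric_of_lt_one h0.le h1).mul_left _
  rw [← ENNReal.ofReal_tsum_of_nonneg _ hs]
  · congr 1
    rw [tsum_mul_left, tsum_geometric_of_lt_one h0.le h1]
    have : 1 - r ≠ 0 := by linarith
    field_simp
  · intro i
    have : 0 < 1 - r := by linarith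
    positivity

theorem hLIP : StLIP := by
  intro ν R L q p hBd hq hqp hRW
  obtain ⟨C, hC, hW⟩ := hRW
  have hfin : IsFiniteMeasure ν := ⟨hBd.2.trans_lt ENNReal.ofReal_lt_top⟩
  have hp : 0 < p := hq.trans hqp
  obtain ⟨L', hL'0, hL'⟩ : ∃ L' : ℝ, 0 < L' ∧ ν univ ≤ ENNReal.ofReal L' :=
    ⟨max L 1, lt_of_lt_of_le one_pos (le_max_right _ _),
      hBd.2.trans (ENNReal.ofReal_le_ofReal (le_max_left _ _))⟩
  have hW' := rw_all ν (C := C) (q := q) (fun Λ hΛ E hE => hW Λ hΛ E hE)
  -- the ratio
  set δ : ℝ := (p - q) / (2 * q) with hδ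
  have hδ0 : 0 < δ := div_pos (by linarith) (by linarith)
  set r : ℝ := (2 : ℝ) ^ (-δ) with hr
  have hr0 : 0 < r := Real.rpow_pos_of_pos two_pos _
  have hr1 : r < 1 := Real.rpow_lt_one_of_one_lt_of_neg (by norm_num) (by linarith)
  set c : ℝ := (1 - r) / 2 with hc
  have hc0 : 0 < c := by rw [hc]; linarith
  set β : ℝ := (r / 2) ^ (-q) with hβ
  have hβ0 : 0 < β := Real.rpow_pos_of_pos (by positivity) _
  have hβe : β * (2 : ℝ) ^ (-p) = (2 : ℝ) ^ ((q - p) / 2) := by
    have e1 : r / 2 = (2 : ℝ) ^ (-δ - 1) := by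
      rw [Real.rpow_sub two_pos, Real.rpow_one]
    rw [hβ, e1, ← Real.rpow_mul two_pos.le, ← Real.rpow_add two_pos]
    congr 1
    rw [hδ]
    field_simp
    ring
  set ρ : ℝ := β * (2 : ℝ) ^ (-p) with hρ
  have hρ0 : 0 < ρ := by positivity
  have hρ1 : ρ < 1 := by
    rw [hβe]
    exact Real.rpow_lt_one_of_one_lt_of_neg (by norm_num) (by linarith)
  set a : ℝ := (2 * L' * c) ^ (-q) with ha
  have ha0 : 0 < a := Real.rpow_pos_of_pos (by positivity) _
  set K : ℝ := C * a * (2 * L') ^ p with hK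
  have hK0 : 0 < K := by positivity
  refine ⟨K * (1 - ρ)⁻¹, mul_pos hK0 (inv_pos.2 (by linarith)), ?_⟩
  intro f hf
  -- the distributional inequality
  have hdist : ∀ Λ : ℝ, 0 < Λ → volume {x | ENNReal.ofReal Λ < MF ν f x} ≤
      ∑' i : ℕ, ENNReal.ofReal (C * a * β ^ i) *
        volume {x | ENNReal.ofReal Λ < ENNReal.ofReal (2 * L' * ((2 : ℝ) ^ i)⁻¹) * f x} := by
    intro Λ hΛ
    set lam : ℝ := Λ / (2 * L') with hlam
    have hlam0 : 0 < lam := by positivity
    set G : ℕ → Set Pl := fun i => {z | ENNReal.ofReal ((2 : ℝ) ^ i * lam) < f z} with hG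
    have hGm : ∀ i, MeasurableSet (G i) := fun i => measurableSet_lt measurable_const hf
    have hGe : ∀ i, G i =
        {x | ENNReal.ofReal Λ < ENNReal.ofReal (2 * L' * ((2 : ℝ) ^ i)⁻¹) * f x} := by
      intro i
      have hs0 : 0 < 2 * L' * ((2 : ℝ) ^ i)⁻¹ := by positivity
      ext x
      simp only [hG, mem_ofPred_eq]
      have e1 : ENNReal.ofReal Λ = ENNReal.ofReal (2 * L' * ((2 : ℝ) ^ i)⁻¹) *
          ENNReal.ofReal ((2 : ℝ) ^ i * lam) := by
        rw [← ENNReal.ofReal_mul hs0.le]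
        congr 1
        rw [hlam]
        field_simp
      rw [e1]
      constructor
      · intro h
        exact (ENNReal.mul_lt_mul_iff_right (by simpa using hs0) ENNReal.ofReal_ne_top).2 h
      · intro h
        exact (ENNReal.mul_lt_mul_iff_right (by simpa using hs0) ENNReal.ofReal_ne_top).1 h
    set t : ℕ → ℝ := fun i => 2 * L' * c * (r / 2) ^ i with ht
    have ht0 : ∀ i, 0 < t i := fun i => by rw [ht]; positivity
    have hsub : {x | ENNReal.ofReal Λ < MF ν f x} ⊆
        ⋃ i, {x | ENNReal.ofReal (t i) < MF ν ((G i).indicator 1) x} := by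
      intro x hx
      by_contra hcon
      simp only [mem_iUnion, mem_ofPred_eq, not_exists, not_lt] at hcon
      have h1 := MF_dec ν hf lam hlam0 x
      have h2 : ENNReal.ofReal lam * ν univ ≤ ENNReal.ofReal (Λ / 2) := by
        refine (mul_le_mul_right hL' _).trans (le_of_eq ?_)
        rw [← ENNReal.ofReal_mul hlam0.le]
        congr 1
        rw [hlam]
        field_simp
      have h3 : ∑' i : ℕ, ENNReal.ofReal ((2 : ℝ) ^ i * lam) * MF ν ((G i).indicator 1) x ≤
          ENNReal.ofReal (Λ / 2) := by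
        calc ∑' i : ℕ, ENNReal.ofReal ((2 : ℝ) ^ i * lam) * MF ν ((G i).indicator 1) x
            ≤ ∑' i : ℕ, ENNReal.ofReal Λ * ENNReal.ofReal ((1 - r) / 2 * r ^ i) := by
              refine ENNReal.tsum_le_tsum fun i => ?_
              refine (mul_le_mul_right (hcon i) _).trans (le_of_eq ?_)
              rw [← ENNReal.ofReal_mul (by positivity), ← ENNReal.ofReal_mul hΛ.le]
              congr 1
              rw [hlam, ht, ← hc]
              simp only
              rw [div_pow]
              field_simp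
          _ = ENNReal.ofReal Λ * ENNReal.ofReal (1 / 2) := by
              rw [ENNReal.tsum_mul_left, geo r hr0 hr1]
          _ = _ := by
              rw [← ENNReal.ofReal_mul hΛ.le]
              congr 1
              ring
      have h4 : MF ν f x ≤ ENNReal.ofReal Λ := by
        refine h1.trans ((add_le_add h2 h3).trans (le_of_eq ?_))
        rw [← ENNReal.ofReal_add (by positivity) (by positivity)]
        congr 1
        ring
      exact absurd hx (not_lt.2 h4)
    refine (measure_mono hsub).trans ((measure_iUnion_le _).trans ?_)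
    refine ENNReal.tsum_le_tsum fun i => ?_
    refine (hW' (t i) (ht0 i) (G i) (hGm i)).trans (le_of_eq ?_)
    rw [← hGe i]
    congr 2
    rw [ht, ha, hβ]
    simp only
    rw [Real.mul_rpow (by positivity) (by positivity), ← Real.rpow_natCast (r / 2) i,
      ← Real.rpow_natCast ((r / 2) ^ (-q)) i, ← Real.rpow_mul (by positivity),
      ← Real.rpow_mul (by positivity), mul_comm (i : ℝ) (-q)]
    ring
  -- layer cake
  have hlc := Pool.Agent.Helper42.LM.hLC p hp
  change ∫⁻ x, MF ν f x ^ p ≤ _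
  rw [hlc _ (MF_meas ν hf)]
  calc ∫⁻ lam in Ioi (0 : ℝ), ENNReal.ofReal (p * lam ^ (p - 1)) *
        volume {x | ENNReal.ofReal lam < MF ν f x}
      ≤ ∫⁻ lam in Ioi (0 : ℝ), ∑' i : ℕ, ENNReal.ofReal (C * a * β ^ i) *
        (ENNReal.ofReal (p * lam ^ (p - 1)) *
        volume {x | ENNReal.ofReal lam < ENNReal.ofReal (2 * L' * ((2 : ℝ) ^ i)⁻¹) * f x}) := by
        refine setLIntegral_mono' measurableSet_Ioi fun lam hlam => ?_
        refine (mul_le_mul_right (hdist lam hlam) _).trans (le_of_eq ?_)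
        rw [← ENNReal.tsum_mul_left]
        congr 1
        funext i
        ring
    _ = ∑' i : ℕ, ENNReal.ofReal (C * a * β ^ i) *
        ∫⁻ x, (ENNReal.ofReal (2 * L' * ((2 : ℝ) ^ i)⁻¹) * f x) ^ p := by
        have hmeas : ∀ i : ℕ, Measurable fun lam : ℝ => ENNReal.ofReal (p * lam ^ (p - 1)) *
            volume {x | ENNReal.ofReal lam < ENNReal.ofReal (2 * L' * ((2 : ℝ) ^ i)⁻¹) * f x} := by
          intro i
          refine Measurable.mul (by fun_prop) ?_
          have hms : MeasurableSet {z : ℝ × Pl | ENNReal.ofReal z.1 <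
              ENNReal.ofReal (2 * L' * ((2 : ℝ) ^ i)⁻¹) * f z.2} :=
            measurableSet_lt (ENNReal.measurable_ofReal.comp measurable_fst)
              ((hf.comp measurable_snd).const_mul _)
          exact measurable_measure_prodMk_left hms
        rw [lintegral_tsum]
        · congr 1
          funext i
          rw [lintegral_const_mul _ (hmeas i), hlc _ (hf.const_mul _)]
        · intro i
          exact ((hmeas i).const_mul _).aemeasurable
    _ = ∑' i : ℕ, ENNReal.ofReal (K * ρ ^ i) * ∫⁻ x, f x ^ p := by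
        congr 1
        funext i
        have h1 : ∀ x, (ENNReal.ofReal (2 * L' * ((2 : ℝ) ^ i)⁻¹) * f x) ^ p =
            ENNReal.ofReal ((2 * L' * ((2 : ℝ) ^ i)⁻¹) ^ p) * f x ^ p := by
          intro x
          rw [ENNReal.mul_rpow_of_nonneg _ _ hp.le, ENNReal.ofReal_rpow_of_pos (by positivity)]
        simp only [h1]
        rw [lintegral_const_mul _ (hf.pow_const p), ← mul_assoc, ← ENNReal.ofReal_mul (by positivity)]
        congr 2
        rw [hK, hρ, Real.mul_rpow (by positivity) (by positivity), mul_pow]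
        have h2 : (((2 : ℝ) ^ i)⁻¹) ^ p = ((2 : ℝ) ^ (-p)) ^ i := by
          rw [← Real.rpow_natCast ((2 : ℝ) ^ (-p)) i, ← Real.rpow_mul two_pos.le,
            ← Real.rpow_natCast (2 : ℝ) i, ← Real.rpow_neg two_pos.le, ← Real.rpow_mul two_pos.le]
          congr 1
          ring
        rw [h2]
        ring
    _ = ENNReal.ofReal (K * (1 - ρ)⁻¹) * ∫⁻ x, f x ^ p := by
        rw [ENNReal.tsum_mul_right]
        congr 1
        have hs : Summable fun i : ℕ => K * ρ ^ i :=
          (summable_geometric_of_lt_one hρ0.le hρ1).mul_left _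
        rw [← ENNReal.ofReal_tsum_of_nonneg (fun i => by positivity) hs, tsum_mul_left,
          tsum_geometric_of_lt_one hρ0.le hρ1]

end Pool.Agent.Helper6.RL
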